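import Pool.Agent.Lib.MP_119be6_an.Construct

/-!
# A stably regular operator from `L^p` to `L^{p'}` that is not `p'`-absolutely summing

`L^r[0,1]` is `LI r`, with Lebesgue measure and real scalars.  For every `p` with `2 < p < ∞`, with
conjugate exponent `q`, there is a bounded operator `U` from `L^p` to `L^q` such that `W U V` is
regular for all bounded operators `V` on `L^p` and `W` on `L^q`, while `U` is not `q`-absolutely
summing.
-/

open MeasureTheory
open scoped ENNReal NNReal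

namespace Pool.Agent.Results.MP_119be6_an.StablyRegularNotSumming

/-- Lebesgue measure on `[0,1]`. -/
noncomputable abbrev leb : Measure ℝ := volume.restrict (Set.Icc 0 1)

/-- The real space `L^r[0,1]`. -/
abbrev LI (r : ℝ≥0∞) : Type := Lp ℝ r leb

/-- `s` is order bounded: it lies in an order interval `{h : -g ≤ h ≤ g}` with `0 ≤ g ∈ L^r`. -/
def OrderBounded {r : ℝ≥0∞} (s : Set (LI r)) : Prop :=
  ∃ g : LI r, 0 ≤ g ∧ ∀ h ∈ s, -g ≤ h ∧ h ≤ g

variable {p q : ℝ≥0∞} [Fact (1 ≤ p)] [Fact (1 ≤ q)]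

/-- `S` is regular: it sends order bounded sets to order bounded sets. -/
def IsRegular (S : LI p →L[ℝ] LI q) : Prop :=
  ∀ s : Set (LI p), OrderBounded s → OrderBounded (S '' s)

/-- `U` is (two-sided) stably regular: `W U V` is regular for all bounded operators `V` on `L^p`
and `W` on `L^q`. -/
def IsStablyRegular (U : LI p →L[ℝ] LI q) : Prop :=
  ∀ (V : LI p →L[ℝ] LI p) (W : LI q →L[ℝ] LI q), IsRegular (W ∘L U ∘L V)

/-- `U` is `r`-absolutely summing; `p'` is the exponent of the space `L^{p'}` of the functions `f`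
that are paired with the elements of `L^p`. -/
def IsSumming (p' : ℝ≥0∞) (r : ℝ) (U : LI p →L[ℝ] LI q) : Prop :=
  ∃ C : ℝ≥0, ∀ (n : ℕ) (x : Fin n → LI p),
    (∑ k, ‖U (x k)‖ₑ ^ r) ^ (1 / r) ≤
      C * ⨆ f : {f : LI p' // ‖f‖ ≤ 1}, (∑ k, ‖∫ t, x k t * f.1 t ∂leb‖ₑ ^ r) ^ (1 / r)

/-- disjoint intervals in `[0,1]` -/
def ivl (k : ℕ) : Set ℝ := Set.Ioc (1 / (((k + 1 : ℕ) : ℝ) + 1)) (1 / ((k : ℝ) + 1))

lemma ivl_subset (k : ℕ) : ivl k ⊆ Set.Icc 0 1 := by
  intro x hx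
  unfold ivl at hx
  have h1 : (0 : ℝ) < 1 / (((k + 1 : ℕ) : ℝ) + 1) := by positivity
  have h2 : 1 / ((k : ℝ) + 1) ≤ 1 := by
    rw [div_le_one (by positivity)]
    have : (0 : ℝ) ≤ k := Nat.cast_nonneg k
    linarith
  exact ⟨h1.le.trans hx.1.le, hx.2.trans h2⟩

lemma ivl_measurable (k : ℕ) : MeasurableSet (ivl k) := measurableSet_Ioc

lemma leb_ivl (k : ℕ) : leb (ivl k)
    = ENNReal.ofReal (1 / ((k : ℝ) + 1) - 1 / (((k + 1 : ℕ) : ℝ) + 1)) := by
  unfold leb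
  rw [Measure.restrict_apply (ivl_measurable k), Set.inter_eq_left.2 (ivl_subset k)]
  unfold ivl
  rw [Real.volume_Ioc]

lemma leb_ivl_ne_zero (k : ℕ) : leb (ivl k) ≠ 0 := by
  rw [leb_ivl]
  have h1 : 1 / (((k + 1 : ℕ) : ℝ) + 1) < 1 / ((k : ℝ) + 1) := by
    push_cast
    exact one_div_lt_one_div_of_lt (by positivity) (by linarith)
  exact (ENNReal.ofReal_pos.2 (by linarith)).ne'

lemma leb_ivl_ne_top (k : ℕ) : leb (ivl k) ≠ ∞ := by
  rw [leb_ivl]; exact ENNReal.ofReal_ne_top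

lemma ivl_disjoint : Pairwise fun i j => Disjoint (ivl i) (ivl j) := by
  have h : Antitone fun k : ℕ => 1 / ((k : ℝ) + 1) := by
    intro a b hab
    have h2 : (a : ℝ) ≤ b := by exact_mod_cast hab
    exact one_div_le_one_div_of_le (by positivity) (by linarith)
  intro i j hij
  exact h.pairwise_disjoint_on_Ioc_succ hij

lemma regular_of_rb [p.HolderConjugate q] (hp1 : p ≠ ∞) (hq1 : q ≠ ∞) (S : LI p →L[ℝ] LI q)
    (C : ℝ) (hC : MP_119be6_an.RB S C) : IsRegular S := by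
  intro s hs
  obtain ⟨g, hg0, hg⟩ := hs
  obtain ⟨G, hG⟩ := MP_119be6_an.order_bounded hp1 hq1 S C hC g hg0
  refine ⟨|G|, abs_nonneg G, ?_⟩
  rintro _ ⟨h, hh, rfl⟩
  have h1 : |h| ≤ g := sup_le (hg h hh).2 (neg_le.1 (hg h hh).1)
  have h2 : |S h| ≤ |G| := (hG h h1).trans (le_abs_self G)
  exact ⟨neg_le.1 ((neg_le_abs (S h)).trans h2), (le_abs_self _).trans h2⟩

/-- **Main result.**  For every `p` with `2 < p < ∞`, with conjugate exponent `q = p'`, there is a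
stably regular operator `U` from `L^p[0,1]` to `L^q[0,1]` that is not `q`-absolutely summing. -/
theorem result (p q : ℝ≥0∞) [Fact (1 ≤ p)] [Fact (1 ≤ q)] (hpq : 1 / p + 1 / q = 1)
    (h2 : 2 < p) (hp : p < ∞) :
    ∃ U : LI p →L[ℝ] LI q, IsStablyRegular U ∧ ¬ IsSumming q q.toReal U := by
  haveI : p.HolderConjugate q := by
    rw [ENNReal.holderConjugate_iff]
    simpa only [one_div] using hpq
  have hp1 : p ≠ ∞ := hp.ne
  have hq1 : q ≠ ∞ := by
    intro h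
    rw [h] at hpq
    simp only [one_div, ENNReal.inv_top, add_zero, ENNReal.inv_eq_one] at hpq
    rw [hpq] at h2
    exact absurd h2 (by norm_num)
  have hq0 : q ≠ 0 := (lt_of_lt_of_le one_pos (Fact.out : 1 ≤ q)).ne'
  have hQ : 0 < q.toReal := ENNReal.toReal_pos hq0 hq1
  obtain ⟨U, hU1, hU2⟩ := MP_119be6_an.main_abs (p := p) (q := q) (μ := leb) (A := ivl)
    hp1 hq1 h2 leb_ivl_ne_zero ivl_disjoint ivl_measurable leb_ivl_ne_top
  refine ⟨U, ?_, ?_⟩
  · intro V W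
    obtain ⟨C, hC⟩ := hU1 V W
    exact regular_of_rb hp1 hq1 _ C hC
  · rintro ⟨C, hC⟩
    obtain ⟨n, hn⟩ := exists_nat_gt ((C : ℝ) ^ q.toReal)
    obtain ⟨N, x, hx, hxn⟩ := hU2 n
    have h1 := hC N x
    have h3 : (⨆ f : {f : LI q // ‖f‖ ≤ 1},
        (∑ k, ‖∫ t, x k t * f.1 t ∂leb‖ₑ ^ q.toReal) ^ (1 / q.toReal)) ≤ 1 := by
      refine iSup_le fun f => ?_
      have h4 := hx f.1 f.2
      have h5 : ∑ k, ‖∫ t, x k t * f.1 t ∂leb‖ₑ ^ q.toReal
          = ENNReal.ofReal (∑ k, |MP_119be6_an.pr leb p q (x k) f.1| ^ q.toReal) := by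
        rw [ENNReal.ofReal_sum_of_nonneg fun _ _ => by positivity]
        refine Finset.sum_congr rfl fun k _ => ?_
        rw [MP_119be6_an.pr_apply, ← Real.norm_eq_abs,
          ← ENNReal.ofReal_rpow_of_nonneg (norm_nonneg _) hQ.le, ofReal_norm]
      rw [h5]
      refine ENNReal.rpow_le_one ?_ (by positivity)
      exact ENNReal.ofReal_le_one.2 h4
    have h6 : (∑ k, ‖U (x k)‖ₑ ^ q.toReal) ^ (1 / q.toReal) ≤ C := by
      refine h1.trans ?_
      calc (C : ℝ≥0∞) * _ ≤ C * 1 := mul_le_mul_right h3 _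
        _ = C := mul_one _
    have h7 : ∑ k, ‖U (x k)‖ₑ ^ q.toReal
        = ENNReal.ofReal (∑ k, ‖U (x k)‖ ^ q.toReal) := by
      rw [ENNReal.ofReal_sum_of_nonneg fun _ _ => by positivity]
      refine Finset.sum_congr rfl fun k _ => ?_
      rw [← ENNReal.ofReal_rpow_of_nonneg (norm_nonneg _) hQ.le, ofReal_norm]
    have h8 : ∑ k, ‖U (x k)‖ₑ ^ q.toReal ≤ (C : ℝ≥0∞) ^ q.toReal := by
      have := ENNReal.rpow_le_rpow h6 hQ.le
      rwa [← ENNReal.rpow_mul, one_div_mul_cancel hQ.ne', ENNReal.rpow_one] at this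
    rw [h7, ← ENNReal.ofReal_coe_nnreal, ENNReal.ofReal_rpow_of_nonneg C.coe_nonneg hQ.le,
      ENNReal.ofReal_le_ofReal_iff (by positivity)] at h8
    linarith

end Pool.Agent.Results.MP_119be6_an.StablyRegularNotSumming
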